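import Pool.Agent.LCK.Stmts

/-!
# MP_e0fe99_lc, row FIN: the configuration space is covered by finitely many connected subsets
-/

set_option autoImplicit false

open Topology

namespace Pool.Agent.LCK.H24

/-- Row FIN. -/
theorem fin (fcd : FCDStmt) (fpf : FPFStmt) (par : PARStmt) (det : DETStmt) : FINStmt := by
  intro n l hl
  obtain ⟨f, hf, hne, hgood⟩ := det n l hl
  obtain ⟨hFC, hD⟩ := fpf (Fin (n + 1) × Fin 3) f hf hne
  obtain ⟨par1, par2⟩ := par n l hl
  have himg : FC (V l '' {x | f x ≠ 0}) := by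
    refine (fcd (Fin (n + 1) × Fin 3 → ℝ) (Fin (n + 1) → E3)).2 _ _ ?_ hFC
    intro a ha
    exact ((par2 a (hgood a ha).1).2.2).continuousWithinAt
  have hsub : V l '' {x | f x ≠ 0} ⊆ Conf l := by
    rintro _ ⟨a, ha, rfl⟩
    exact ⟨(par2 a (hgood a ha).1).2.1, (hgood a ha).2⟩
  refine (fcd (Fin (n + 1) → E3) (Fin (n + 1) → E3)).1 _ _ hsub ?_ himg
  intro v hv
  obtain ⟨a, hQ, rfl⟩ := par1 v hv.1
  have hc : ContinuousAt (V l) a := (par2 a hQ).2.2
  exact mem_closure_image hc (hD a)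

end Pool.Agent.LCK.H24
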